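import Pool.Agent.L0h1.SJ.StmA

/-! Module NSB of project SJ. -/

set_option autoImplicit false
set_option linter.unusedVariables false
set_option linter.unusedSectionVars false

open scoped Classical

namespace Pool.Agent.L0h81.SJ

open Finset Pool.Agent.L0h1.SJ

theorem z2 (a : ZMod 2) : a = 0 ∨ a = 1 := by revert a; decide

theorem z2_add_self (a : ZMod 2) : a + a = 0 := by revert a; decide

theorem sr_add (a b : ZMod 2) : sr (a + b) = sr a * sr b := by
  have h11 : (1 + 1 : ZMod 2) = 0 := by decide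
  rcases z2 a with rfl | rfl <;> rcases z2 b with rfl | rfl <;> simp [sr, h11]

section perp

variable {I : Type} [Fintype I]

/-- the orthogonal complement -/
noncomputable def perp (D : Finset (I → ZMod 2)) : Finset (I → ZMod 2) :=
  univ.filter fun v => ∀ d ∈ D, ∑ i, d i * v i = 0

theorem mem_perp {D : Finset (I → ZMod 2)} {v : I → ZMod 2} :
    v ∈ perp D ↔ ∀ d ∈ D, ∑ i, d i * v i = 0 :=
  ⟨fun h => (mem_filter.1 h).2, fun h => mem_filter.2 ⟨mem_univ _, h⟩⟩

theorem mem_dx {J : Type} [Fintype J] {X : J → I → ZMod 2} {c : I → ZMod 2} :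
    c ∈ DX X ↔ ∀ p q, ∑ i, c i * (X p i + X q i) = 0 :=
  ⟨fun h => (mem_filter.1 h).2, fun h => mem_filter.2 ⟨mem_univ _, h⟩⟩

theorem pair_add (d d' v : I → ZMod 2) :
    ∑ i, (d + d') i * v i = ∑ i, d i * v i + ∑ i, d' i * v i := by
  rw [← sum_add_distrib]
  exact sum_congr rfl fun i _ => by rw [Pi.add_apply, add_mul]

theorem pair_add' (d v v' : I → ZMod 2) :
    ∑ i, d i * (v + v') i = ∑ i, d i * v i + ∑ i, d i * v' i := by
  rw [← sum_add_distrib]
  exact sum_congr rfl fun i _ => by rw [Pi.add_apply, mul_add]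

theorem add_self_fun (v : I → ZMod 2) : v + v = 0 := by
  funext i
  exact z2_add_self _

theorem card_perp (D : Finset (I → ZMod 2)) (h0 : 0 ∈ D) (hadd : ∀ c ∈ D, ∀ d ∈ D, c + d ∈ D) :
    ((perp D).card : ℝ) * D.card = 2 ^ Fintype.card I := by
  have hA : ∀ v : I → ZMod 2, ∑ d ∈ D, sr (∑ i, d i * v i) =
      if v ∈ perp D then (D.card : ℝ) else 0 := by
    intro v
    by_cases hv : v ∈ perp D
    · rw [if_pos hv]
      have h1 : ∀ d ∈ D, sr (∑ i, d i * v i) = 1 := by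
        intro d hd
        rw [(mem_filter.1 hv).2 d hd]
        simp [sr]
      rw [sum_congr rfl h1]
      simp
    · rw [if_neg hv]
      have h1 : ∃ d₀ ∈ D, ∑ i, d₀ i * v i ≠ 0 := by
        by_contra hcon
        push Not at hcon
        exact hv (mem_filter.2 ⟨mem_univ _, hcon⟩)
      obtain ⟨d₀, hd₀, h2⟩ := h1
      have h3 : ∑ i, d₀ i * v i = 1 := (z2 _).resolve_left h2
      have h4 : ∀ d : I → ZMod 2, sr (∑ i, (d + d₀) i * v i) = - sr (∑ i, d i * v i) := by
        intro d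
        rw [pair_add, sr_add, h3]
        simp [sr]
      refine Finset.sum_involution (fun d _ => d + d₀) ?_ ?_ ?_ ?_
      · intro d hd
        rw [h4]
        ring
      · intro d hd _ h5
        have h6 : d₀ = 0 := by
          have h7 : d + d₀ = d + 0 := by rw [add_zero]; exact h5
          exact add_left_cancel h7
        rw [h6] at h2
        exact h2 (by simp)
      · intro d hd
        exact hadd d hd d₀ hd₀
      · intro d hd
        rw [add_assoc, add_self_fun, add_zero]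
  have hB : ∀ d : I → ZMod 2, ∑ v : I → ZMod 2, sr (∑ i, d i * v i) =
      if d = 0 then (2 : ℝ) ^ Fintype.card I else 0 := by
    intro d
    by_cases hd : d = 0
    · rw [if_pos hd]
      subst hd
      simp [sr]
    · rw [if_neg hd]
      have h1 : ∃ i₀, d i₀ ≠ 0 := by
        by_contra hcon
        push Not at hcon
        exact hd (funext hcon)
      obtain ⟨i₀, hi₀⟩ := h1
      have h2 : d i₀ = 1 := (z2 _).resolve_left hi₀
      obtain ⟨w, h3⟩ : ∃ w : I → ZMod 2, ∑ i, d i * w i = 1 := by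
        refine ⟨Pi.single i₀ (1 : ZMod 2), ?_⟩
        rw [sum_eq_single i₀]
        · rw [Pi.single_eq_same, h2, mul_one]
        · intro i _ hi
          rw [Pi.single_eq_of_ne hi, mul_zero]
        · intro h
          exact absurd (mem_univ _) h
      have h4 : ∀ v : I → ZMod 2, sr (∑ i, d i * (v + w) i) = - sr (∑ i, d i * v i) := by
        intro v
        rw [pair_add', sr_add, h3]
        simp [sr]
      refine Finset.sum_involution (fun v _ => v + w) ?_ ?_ ?_ ?_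
      · intro v _
        rw [h4]
        ring
      · intro v _ _ h5
        have h6 : w = 0 := by
          have h7 : v + w = v + 0 := by rw [add_zero]; exact h5
          exact add_left_cancel h7
        rw [h6] at h3
        simp at h3
      · intro v _
        exact mem_univ _
      · intro v _
        rw [add_assoc, add_self_fun, add_zero]
  have h1 : ∑ v : I → ZMod 2, ∑ d ∈ D, sr (∑ i, d i * v i) = ((perp D).card : ℝ) * D.card := by
    have h9 : univ.filter (fun v => v ∈ perp D) = perp D := by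
      ext v
      simp
    rw [sum_congr rfl fun v _ => hA v, ← sum_filter, h9, sum_const, nsmul_eq_mul]
  rw [← h1, sum_comm, sum_congr rfl fun d _ => hB d, ← sum_filter]
  have h2 : D.filter (fun d => d = 0) = {0} := by
    ext d
    rw [mem_filter, mem_singleton]
    constructor
    · rintro ⟨_, h⟩
      exact h
    · rintro rfl
      exact ⟨h0, rfl⟩
  rw [h2, sum_singleton]

/-- the number of the families of labels -/
theorem cnt_bound {J : Type} [Fintype J] (D : Finset (I → ZMod 2)) (h0 : 0 ∈ D)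
    (hadd : ∀ c ∈ D, ∀ d ∈ D, c + d ∈ D) (S : Finset J) (a f w₀ : I → ZMod 2) (R : J → ZMod 2)
    (hw : w₀ ∈ perp D) (hf : ∑ i, f i * w₀ i = 1) (F : Finset (J → I → ZMod 2))
    (hF : ∀ X ∈ F, (∀ q, ∀ d ∈ D, ∑ i, d i * (X q i + a i) = 0) ∧
      ∀ q ∈ S, ∑ i, f i * X q i = R q) :
    (F.card : ℝ) * (D.card : ℝ) ^ Fintype.card J ≤
    (2 ^ Fintype.card I) ^ Fintype.card J * (1 / 2 : ℝ) ^ S.card := by
  let A : J → Finset (I → ZMod 2) := fun q => univ.filter fun v =>
    (∀ d ∈ D, ∑ i, d i * (v i + a i) = 0) ∧ (q ∈ S → ∑ i, f i * v i = R q)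
  have hsub : F ⊆ Fintype.piFinset A := by
    intro X hX
    rw [Fintype.mem_piFinset]
    intro q
    exact mem_filter.2 ⟨mem_univ _, (hF X hX).1 q, fun hq => (hF X hX).2 q hq⟩
  have hcard : (F.card : ℝ) ≤ ∏ q, ((A q).card : ℝ) := by
    have h1 := card_le_card hsub
    rw [Fintype.card_piFinset] at h1
    calc _ ≤ ((∏ q, (A q).card : ℕ) : ℝ) := by exact_mod_cast h1
      _ = ∏ q, ((A q).card : ℝ) := by push_cast; rfl
  have hD := card_perp D h0 hadd
  -- one factor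
  have hperp : ∀ v : I → ZMod 2, (∀ d ∈ D, ∑ i, d i * (v i + a i) = 0) → v + a ∈ perp D :=
    fun v hv => mem_filter.2 ⟨mem_univ _, fun d hd => hv d hd⟩
  have hone : ∀ q, (A q).card ≤ (perp D).card := by
    intro q
    refine card_le_card_of_injOn (fun v => v + a) ?_ ?_
    · intro v hv
      exact hperp v (mem_filter.1 hv).2.1
    · intro v _ v' _ h
      exact add_right_cancel h
  have htwo : ∀ q ∈ S, 2 * (A q).card ≤ (perp D).card := by
    intro q hq
    have h1 : ((A q).image fun v => v + a) ∪ ((A q).image fun v => v + a + w₀) ⊆ perp D := by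
      intro z hz
      rw [mem_union, mem_image, mem_image] at hz
      rcases hz with ⟨v, hv, rfl⟩ | ⟨v, hv, rfl⟩
      · exact hperp v (mem_filter.1 hv).2.1
      · have h2 := hperp v (mem_filter.1 hv).2.1
        refine mem_filter.2 ⟨mem_univ _, fun d hd => ?_⟩
        rw [pair_add', (mem_filter.1 h2).2 d hd, (mem_filter.1 hw).2 d hd, add_zero]
    have hdis : Disjoint ((A q).image fun v => v + a) ((A q).image fun v => v + a + w₀) := by
      rw [disjoint_left]
      intro z hz hz'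
      rw [mem_image] at hz hz'
      obtain ⟨v, hv, rfl⟩ := hz
      obtain ⟨v', hv', h2⟩ := hz'
      have h3 := (mem_filter.1 hv).2.2 hq
      have h4 := (mem_filter.1 hv').2.2 hq
      have h5 := congrArg (fun z : I → ZMod 2 => ∑ i, f i * z i) h2
      change ∑ i, f i * (v' + a + w₀) i = ∑ i, f i * (v + a) i at h5
      rw [pair_add', pair_add', pair_add', h3, h4, hf] at h5
      have h6 : (R q + ∑ i, f i * a i) + 1 = (R q + ∑ i, f i * a i) + 0 := by rw [h5, add_zero]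
      exact absurd (add_left_cancel h6) (by decide)
    have h2 := card_le_card h1
    rw [card_union_of_disjoint hdis, card_image_of_injective _ (add_left_injective a),
      card_image_of_injective] at h2
    · omega
    · intro v v' h
      have h' : v + a + w₀ = v' + a + w₀ := h
      exact add_right_cancel (add_right_cancel h')
  have hD0 : (0 : ℝ) ≤ D.card := Nat.cast_nonneg _
  calc _ ≤ (∏ q, ((A q).card : ℝ)) * (D.card : ℝ) ^ Fintype.card J :=
        mul_le_mul_of_nonneg_right hcard (by positivity)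
    _ = ∏ q : J, ((A q).card : ℝ) * D.card := by
        rw [prod_mul_distrib]
        simp
    _ ≤ ∏ q : J, ((2 : ℝ) ^ Fintype.card I * if q ∈ S then (1 / 2 : ℝ) else 1) := by
        refine prod_le_prod (fun q _ => by positivity) fun q _ => ?_
        split_ifs with hq
        · have h1 : (2 : ℝ) * (A q).card ≤ (perp D).card := by exact_mod_cast htwo q hq
          have h2 := mul_le_mul_of_nonneg_right h1 hD0
          rw [hD] at h2
          linarith
        · have h1 : ((A q).card : ℝ) ≤ (perp D).card := by exact_mod_cast hone q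
          have h2 := mul_le_mul_of_nonneg_right h1 hD0
          rw [hD] at h2
          linarith
    _ = (2 ^ Fintype.card I) ^ Fintype.card J * (1 / 2 : ℝ) ^ S.card := by
        rw [prod_mul_distrib]
        congr 1
        · simp
        · rw [prod_ite, prod_const, prod_const_one, mul_one]
          congr 2
          ext q
          simp

end perp

/-- the coordinates of a tuple at the small indices -/
def sm {t : ℕ} {K : Fin t → ℕ} {U : Fin t → Type} {J : Type} (ξ : Tu K U J) :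
    ∀ l, Fin (K l) → U l → ZMod 2 := fun l i v => ξ l i (Sum.inl v)

theorem card_sm {t : ℕ} (K : Fin t → ℕ) (U : Fin t → Type) [∀ l, Fintype (U l)] :
    (Fintype.card (∀ l, Fin (K l) → U l → ZMod 2) : ℝ) ≤ 2 ^ ((∑ l, K l) * sz U) := by
  have h1 : Fintype.card (∀ l, Fin (K l) → U l → ZMod 2) =
      2 ^ (∑ l, Fintype.card (U l) * K l) := by
    simp only [Fintype.card_pi, prod_const, card_univ, Fintype.card_fin, ZMod.card]
    rw [← prod_pow_eq_pow_sum]
    exact prod_congr rfl fun l _ => by rw [pow_mul]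
  have h2 : ∑ l, Fintype.card (U l) * K l ≤ (∑ l, K l) * sz U := by
    calc ∑ l, Fintype.card (U l) * K l ≤ ∑ l, Fintype.card (U l) * ∑ l, K l :=
          sum_le_sum fun l _ => Nat.mul_le_mul_left _
            (single_le_sum (f := K) (fun _ _ => Nat.zero_le _) (mem_univ l))
      _ = (∑ l, K l) * ∑ l, Fintype.card (U l) := by rw [← sum_mul, mul_comm]
      _ ≤ (∑ l, K l) * sz U := Nat.mul_le_mul_left _ (Nat.le_succ _)
  rw [h1]
  push_cast
  exact pow_le_pow_right₀ (by norm_num) h2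

theorem tu_ext {t : ℕ} {K : Fin t → ℕ} {U : Fin t → Type} [∀ l, Fintype (U l)] {J : Type}
    [Fintype J] {ξ ξ' : Tu K U J} (h1 : sm ξ = sm ξ') (h2 : Xf ξ = Xf ξ') : ξ = ξ' := by
  funext l i p
  rcases p with v | k
  · exact congrFun (congrFun (congrFun h1 l) i) v
  · exact congrFun (congrFun h2 k) ⟨l, i⟩

/-- the data -/
structure Gd {t n : ℕ} {K : Fin t → ℕ} {U : Fin t → Type} [∀ l, Fintype (U l)] {J : Type}
    [Fintype J] (uJ : J → ZMod 2) (N : ∀ l, U l ⊕ J → U l ⊕ J → ZMod 2)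
    (x : Fin t → Fin n → ZMod 2) (JR : Fin n → Finset J) (k₀ : J) (D : Finset (Ix K → ZMod 2))
    (r : Fin n) (c : Ix K → ZMod 2) (e : ZMod 2) (η : ∀ l, Fin (K l) → U l → ZMod 2)
    (a : Ix K → ZMod 2) (ξ : Tu K U J) : Prop where
  hD : DX (Xf ξ) = D
  hf : (fun i : Ix K => x i.1 r * c i) ∉ D
  hs : sm ξ = η
  ha : Xf ξ k₀ = a
  he : ∀ l₀, ∀ q ∈ JR r, ∑ i : Ix K, x i.1 r * c i * Xf ξ q i =
      e * (de N l₀ q + x l₀ r) +
        ∑ i : Ix K, c i * ∑ v, ξ i.1 i.2 (Sum.inl v) * N i.1 (Sum.inr q) (Sum.inl v)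

theorem dx_zero {J I : Type} [Fintype J] [Fintype I] (X : J → I → ZMod 2) : 0 ∈ DX X :=
  mem_dx.2 fun p q => by simp

theorem dx_add {J I : Type} [Fintype J] [Fintype I] (X : J → I → ZMod 2) :
    ∀ c ∈ DX X, ∀ d ∈ DX X, c + d ∈ DX X := by
  intro c hc d hd
  refine mem_dx.2 fun p q => ?_
  have h1 := mem_dx.1 hc p q
  have h2 := mem_dx.1 hd p q
  have h3 := pair_add c d (fun i => X p i + X q i)
  rw [h3, h1, h2, add_zero]

theorem gd_bound {t n : ℕ} {K : Fin t → ℕ} {U : Fin t → Type} [∀ l, Fintype (U l)] {J : Type}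
    [Fintype J] (uJ : J → ZMod 2) (N : ∀ l, U l ⊕ J → U l ⊕ J → ZMod 2)
    (x : Fin t → Fin n → ZMod 2) (JR : Fin n → Finset J) (k₀ : J) (D : Finset (Ix K → ZMod 2))
    (r : Fin n) (c : Ix K → ZMod 2) (e : ZMod 2) (η : ∀ l, Fin (K l) → U l → ZMod 2)
    (a : Ix K → ZMod 2) (G : Finset (Tu K U J)) (hG : ∀ ξ ∈ G, Gd uJ N x JR k₀ D r c e η a ξ) :
    (G.card : ℝ) * (D.card : ℝ) ^ Fintype.card J ≤
    (2 ^ Fintype.card (Ix K)) ^ Fintype.card J * (1 / 2 : ℝ) ^ (JR r).card := by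
  rcases G.eq_empty_or_nonempty with hne | hne
  · rw [hne]
    simp only [card_empty, Nat.cast_zero, zero_mul]
    positivity
  · obtain ⟨ξ₀, h0'⟩ := hne
    have h0 := hG ξ₀ h0'
    have hD0 : 0 ∈ D := by rw [← h0.hD]; exact dx_zero _
    have hDa : ∀ c ∈ D, ∀ d ∈ D, c + d ∈ D := by rw [← h0.hD]; exact dx_add _
    -- a vector of the orthogonal complement
    have h1 : ∃ p q, ∑ i : Ix K, x i.1 r * c i * (Xf ξ₀ p i + Xf ξ₀ q i) ≠ 0 := by
      by_contra hcon
      push Not at hcon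
      apply h0.hf
      rw [← h0.hD]
      exact mem_dx.2 hcon
    obtain ⟨p, q, h1⟩ := h1
    have h2 : (fun i => Xf ξ₀ p i + Xf ξ₀ q i) ∈ perp D := by
      refine mem_perp.2 fun d hd => ?_
      rw [← h0.hD] at hd
      exact mem_dx.1 hd p q
    have h3 : Nonempty (Ix K) := by
      by_contra hcon
      rw [not_nonempty_iff] at hcon
      exact h1 (sum_eq_zero fun i _ => (hcon.false i).elim)
    obtain ⟨i₀⟩ := h3
    have hinj : Set.InjOn (fun ξ : Tu K U J => Xf ξ) (G : Set (Tu K U J)) := by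
      intro ξ hξ ξ' hξ' h
      exact tu_ext ((hG ξ (mem_coe.1 hξ)).hs.trans (hG ξ' (mem_coe.1 hξ')).hs.symm) h
    have hcnt := cnt_bound D hD0 hDa (JR r) a (fun i => x i.1 r * c i)
      (fun i => Xf ξ₀ p i + Xf ξ₀ q i)
      (fun q => e * (de N i₀.1 q + x i₀.1 r) +
        ∑ i : Ix K, c i * ∑ v, η i.1 i.2 v * N i.1 (Sum.inr q) (Sum.inl v)) h2
      ((z2 _).resolve_left h1)
      (G.image fun ξ => Xf ξ) (by
        intro X hX
        rw [mem_image] at hX
        obtain ⟨ξ, hξ, rfl⟩ := hX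
        have hg := hG ξ hξ
        refine ⟨fun q d hd => ?_, fun q hq => ?_⟩
        · rw [← hg.hD] at hd
          rw [← hg.ha]
          exact mem_dx.1 hd q k₀
        · rw [← hg.hs]
          exact hg.he i₀.1 q hq)
    rw [card_image_of_injOn hinj] at hcnt
    exact hcnt

theorem gd_sum (hRBD : S_RBD) {t n : ℕ} {K : Fin t → ℕ} {U : Fin t → Type}
    [∀ l, Fintype (U l)] {J : Type} [Fintype J] (uJ : J → ZMod 2)
    (N : ∀ l, U l ⊕ J → U l ⊕ J → ZMod 2) (x : Fin t → Fin n → ZMod 2) (JR : Fin n → Finset J)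
    (k₀ : J) (D : Finset (Ix K → ZMod 2)) (r : Fin n) (c : Ix K → ZMod 2) (e : ZMod 2)
    (η : ∀ l, Fin (K l) → U l → ZMod 2) (a : Ix K → ZMod 2) (m : ℕ) (hm : m ≤ (JR r).card)
    (G : Finset (Tu K U J)) (hG : ∀ ξ ∈ G, Gd uJ N x JR k₀ D r c e η a ξ) :
    ∑ ξ ∈ G, ((RX (Xf ξ)).card : ℝ) ≤
    2 ^ (Fintype.card (Ix K) * (Fintype.card (Ix K) + 1)) *
      ((2 ^ Fintype.card (Ix K)) ^ Fintype.card J * (1 / 2 : ℝ) ^ m) := by
  have hJ : Nonempty J := ⟨k₀⟩
  have h4 := gd_bound uJ N x JR k₀ D r c e η a G hG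
  have h3 : ∀ ξ ∈ G, ((RX (Xf ξ)).card : ℝ) ≤
      2 ^ (Fintype.card (Ix K) * (Fintype.card (Ix K) + 1)) * (D.card : ℝ) ^ Fintype.card J := by
    intro ξ hξ
    have hd := hG ξ hξ
    have h5 := hRBD J (Ix K) (Xf ξ)
    rw [hd.hD] at h5
    exact_mod_cast h5
  have h6 := sum_le_sum h3
  rw [sum_const, nsmul_eq_mul] at h6
  have h7 : (1 / 2 : ℝ) ^ (JR r).card ≤ (1 / 2 : ℝ) ^ m :=
    pow_le_pow_of_le_one (by norm_num) (by norm_num) hm
  have h8 : (0 : ℝ) ≤ (2 ^ Fintype.card (Ix K)) ^ Fintype.card J := by positivity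
  have h9 := mul_le_mul_of_nonneg_left h7 h8
  have h10 := mul_le_mul_of_nonneg_left (h4.trans h9)
    (by positivity : (0 : ℝ) ≤ 2 ^ (Fintype.card (Ix K) * (Fintype.card (Ix K) + 1)))
  refine h6.trans (le_trans (le_of_eq ?_) h10)
  ring

theorem cover {α β : Type} [Fintype β] (Q : Finset α) (G : β → Finset α) (g : α → ℝ)
    (hg0 : ∀ ξ, 0 ≤ g ξ) (hcov : ∀ ξ ∈ Q, ∃ d, ξ ∈ G d) (b : ℝ)
    (hb : ∀ d, ∑ ξ ∈ G d, g ξ ≤ b) : ∑ ξ ∈ Q, g ξ ≤ Fintype.card β * b := by
  have hstep : ∑ ξ ∈ Q, g ξ ≤ ∑ d, ∑ ξ ∈ G d, g ξ := by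
    calc ∑ ξ ∈ Q, g ξ ≤ ∑ ξ ∈ Q, ∑ d, (if ξ ∈ G d then g ξ else 0) := by
          refine sum_le_sum fun ξ hξ => ?_
          obtain ⟨d, hd⟩ := hcov ξ hξ
          calc g ξ = if ξ ∈ G d then g ξ else 0 := (if_pos hd).symm
            _ ≤ ∑ d, (if ξ ∈ G d then g ξ else 0) :=
              single_le_sum (f := fun d => if ξ ∈ G d then g ξ else 0)
                (fun d _ => by
                  show 0 ≤ if ξ ∈ G d then g ξ else 0
                  split_ifs
                  · exact hg0 ξ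
                  · exact le_rfl) (mem_univ d)
      _ = ∑ d, ∑ ξ ∈ Q, (if ξ ∈ G d then g ξ else 0) := sum_comm
      _ ≤ ∑ d, ∑ ξ ∈ G d, g ξ := by
          refine sum_le_sum fun d _ => ?_
          rw [← sum_filter]
          refine sum_le_sum_of_subset_of_nonneg (fun ξ hξ => (mem_filter.1 hξ).2)
            fun ξ _ _ => hg0 ξ
  refine hstep.trans ((sum_le_sum fun d _ => hb d).trans (le_of_eq ?_))
  rw [sum_const, nsmul_eq_mul, card_univ]

theorem card_idx (n : ℕ) {t : ℕ} (K : Fin t → ℕ) (U : Fin t → Type) [∀ l, Fintype (U l)] :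
    (Fintype.card (Finset (Ix K → ZMod 2) × Fin n × (Ix K → ZMod 2) × ZMod 2 ×
      (∀ l, Fin (K l) → U l → ZMod 2) × (Ix K → ZMod 2)) : ℝ) ≤
    2 ^ (2 ^ Fintype.card (Ix K)) * n * 2 ^ Fintype.card (Ix K) * 2 * 2 ^ Fintype.card (Ix K) *
      2 ^ ((∑ l, K l) * sz U) := by
  have h1 : (Fintype.card (Finset (Ix K → ZMod 2) × Fin n × (Ix K → ZMod 2) × ZMod 2 ×
      (∀ l, Fin (K l) → U l → ZMod 2) × (Ix K → ZMod 2)) : ℝ) =
      2 ^ (2 ^ Fintype.card (Ix K)) * n * 2 ^ Fintype.card (Ix K) * 2 * 2 ^ Fintype.card (Ix K) *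
      (Fintype.card (∀ l, Fin (K l) → U l → ZMod 2) : ℝ) := by
    have h2 : Fintype.card (Ix K → ZMod 2) = 2 ^ Fintype.card (Ix K) := by
      rw [Fintype.card_fun, ZMod.card]
    rw [Fintype.card_prod, Fintype.card_prod, Fintype.card_prod, Fintype.card_prod,
      Fintype.card_prod, Fintype.card_finset, h2, Fintype.card_fin, ZMod.card]
    push_cast
    ring
  rw [h1]
  exact mul_le_mul_of_nonneg_left (card_sm K U) (by positivity)

/-- **NSB** -/
theorem t_NSB (hRBD : S_RBD) (hGRD : S_GRD) : S_NSB := by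
  intro t n K ε hε
  set k := Fintype.card (Ix K) with hk
  set M := ∑ l, K l with hM
  set B : ℝ := 2 ^ (2 ^ k) * n * 2 ^ k * 2 * 2 ^ k * 2 ^ (k * (k + 1)) with hB
  have hB0 : 0 ≤ B := by positivity
  obtain ⟨L, hL⟩ := exists_pow_lt_of_lt_one (div_pos hε (by linarith : 0 < B + 1))
    (by norm_num : (1 / 2 : ℝ) < 1)
  have hL' : B * (1 / 2 : ℝ) ^ L ≤ ε := by
    rw [lt_div_iff₀ (by linarith)] at hL
    have h1 : (0 : ℝ) ≤ (1 / 2) ^ L := by positivity
    nlinarith
  refine ⟨M + L + 1, ?_⟩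
  intro U _ J _ _ w uU uJ N NJ x JR hl h1 h2
  have hsz : 1 ≤ sz U := Nat.le_add_left _ _
  have hJ : Nonempty J := by
    have h3 : 0 < (univ.filter fun k => uJ k = 1).card := by
      refine lt_of_lt_of_le ?_ h1
      exact Nat.mul_pos (Nat.succ_pos _) hsz
    obtain ⟨j, _⟩ := card_pos.1 h3
    exact ⟨j⟩
  obtain ⟨k₀⟩ := hJ
  have hJ' : Nonempty J := ⟨k₀⟩
  set g : Tu K U J → ℝ := fun ξ => ((RX (Xf ξ)).card : ℝ) with hg
  have hg0 : ∀ ξ, 0 ≤ g ξ := fun ξ => Nat.cast_nonneg _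
  set Q : Finset (Tu K U J) := univ.filter (fun ξ : Tu K U J => IndT ξ ∧ Full (Xf ξ) ∧
    (∃ c ∈ DX (Xf ξ), c ≠ 0) ∧ ∀ y ∈ RX (Xf ξ), pr y (tg N ξ) = 0) with hQ
  let G : (Finset (Ix K → ZMod 2) × Fin n × (Ix K → ZMod 2) × ZMod 2 ×
      (∀ l, Fin (K l) → U l → ZMod 2) × (Ix K → ZMod 2)) → Finset (Tu K U J) := fun d =>
    univ.filter fun ξ : Tu K U J => Gd uJ N x JR k₀ d.1 d.2.1 d.2.2.1 d.2.2.2.1 d.2.2.2.2.1
      d.2.2.2.2.2 ξ
  have hcov : ∀ ξ ∈ Q, ∃ d, ξ ∈ G d := by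
    intro ξ hξ
    obtain ⟨_, hi, _, hc, hy⟩ := mem_filter.1 hξ
    obtain ⟨r, c, hcD, e, h3, h4, h5⟩ := hGRD t n K U J w uU uJ N NJ x JR hl hJ' ξ hi hc hy
    exact ⟨(DX (Xf ξ), r, c, e, sm ξ, Xf ξ k₀), mem_filter.2 ⟨mem_univ _, ⟨rfl, h3, rfl, rfl, h5⟩⟩⟩
  have hterm : ∀ d, ∑ ξ ∈ G d, g ξ ≤ 2 ^ (k * (k + 1)) *
      ((2 ^ k) ^ Fintype.card J * (1 / 2 : ℝ) ^ ((M + L + 1) * sz U)) := by
    intro d
    exact gd_sum hRBD uJ N x JR k₀ d.1 d.2.1 d.2.2.1 d.2.2.2.1 d.2.2.2.2.1 d.2.2.2.2.2 _ (h2 _)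
      (G d) fun ξ hξ => (mem_filter.1 hξ).2
  have hpow : (2 : ℝ) ^ (M * sz U) * (1 / 2 : ℝ) ^ ((M + L + 1) * sz U) ≤ (1 / 2) ^ L := by
    have e1 : (M + L + 1) * sz U = M * sz U + (L + 1) * sz U := by ring
    rw [e1, pow_add, ← mul_assoc, ← mul_pow]
    norm_num
    have e2 : L ≤ (L + 1) * sz U := by nlinarith
    have := pow_le_pow_of_le_one (by norm_num : (0 : ℝ) ≤ 1 / 2) (by norm_num) e2
    simpa using this
  refine (cover Q G g hg0 hcov _ hterm).trans ?_
  refine (mul_le_mul_of_nonneg_right (card_idx n K U) (by positivity)).trans ?_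
  calc (2 ^ (2 ^ k) * n * 2 ^ k * 2 * 2 ^ k * 2 ^ (M * sz U)) * (2 ^ (k * (k + 1)) *
      ((2 ^ k) ^ Fintype.card J * (1 / 2 : ℝ) ^ ((M + L + 1) * sz U)))
      = B * (2 ^ (M * sz U) * (1 / 2 : ℝ) ^ ((M + L + 1) * sz U)) * (2 ^ k) ^ Fintype.card J := by
        rw [hB]
        ring
    _ ≤ B * (1 / 2) ^ L * (2 ^ k) ^ Fintype.card J :=
        mul_le_mul_of_nonneg_right (mul_le_mul_of_nonneg_left hpow hB0) (by positivity)
    _ ≤ ε * (2 ^ k) ^ Fintype.card J := mul_le_mul_of_nonneg_right hL' (by positivity)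
    _ = ε * 2 ^ (Fintype.card J * k) := by rw [← pow_mul, mul_comm k]

end Pool.Agent.L0h81.SJ
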